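import Mathlib

namespace Pool.Agent.Results.MP_9404a8_an.Slit

open Complex Metric Set Filter Topology

/-- the class `𝒮` -/
def Schlicht (f : ℂ → ℂ) : Prop :=
  DifferentiableOn ℂ f (ball 0 1) ∧ InjOn f (ball 0 1) ∧ f 0 = 0 ∧ deriv f 0 = 1

/-- `F` is the holomorphic logarithm on the bidisc, vanishing at `(0,0)`, of
`(f z - f w)/(z - w) · z/f z · w/f w` -/
def IsLog (f : ℂ → ℂ) (F : ℂ → ℂ → ℂ) : Prop :=
  DifferentiableOn ℂ (fun p : ℂ × ℂ => F p.1 p.2) (ball 0 1 ×ˢ ball 0 1) ∧ F 0 0 = 0 ∧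
    ∀ z ∈ ball (0 : ℂ) 1, ∀ w ∈ ball (0 : ℂ) 1, z ≠ w → z ≠ 0 → w ≠ 0 →
      exp (F z w) = (f z - f w) / (z - w) * (z / f z) * (w / f w)

/-- `∂_z^p ∂_w^q F` on the diagonal -/
noncomputable def S (F : ℂ → ℂ → ℂ) (p q : ℕ) (z : ℂ) : ℂ :=
  iteratedDeriv p (fun s => iteratedDeriv q (F s) z) z

noncomputable def a : ℂ := 399 / 401
noncomputable def y : ℂ := ⟨399 / 401, 40 / 401⟩
noncomputable def m (z : ℂ) : ℂ := (a - z) / (1 - a * z)

lemma lt1 {c w : ℂ} (hc : ‖c‖ ≤ 1) (hw : w ∈ ball (0 : ℂ) 1) : 1 - w * c ∈ slitPlane := by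
  rw [sub_eq_add_neg]
  refine mem_slitPlane_of_norm_lt_one ?_
  rw [norm_neg, norm_mul]
  exact (mul_le_of_le_one_right (norm_nonneg _) hc).trans_lt (by simpa using hw)

lemma na : ‖a‖ ≤ 1 := by simp [a]; norm_num

lemma ny : ‖y‖ ≤ 1 := by
  rw [← sq_le_one_iff₀ (norm_nonneg _), Complex.sq_norm, y, normSq_mk]; norm_num

lemma a0 {z : ℂ} (hz : z ∈ ball (0 : ℂ) 1) : 1 - a * z ≠ 0 :=
  mul_comm z a ▸ slitPlane_ne_zero (lt1 na hz)

lemma nm {z : ℂ} (hz : z ∈ ball (0 : ℂ) 1) : ‖m z‖ ≤ 1 := by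
  rw [m, norm_div, div_le_one (norm_pos_iff.2 (a0 hz)),
    ← sq_le_sq₀ (norm_nonneg _) (norm_nonneg _), Complex.sq_norm, Complex.sq_norm]
  rw [mem_ball_zero_iff, ← sq_lt_one_iff₀ (norm_nonneg _), Complex.sq_norm, normSq_apply] at hz
  have : a = ((399 / 401 : ℝ) : ℂ) := by simp [a]
  simp [this, normSq_apply, -ofReal_div]
  nlinarith

lemma d2 {c w : ℂ} (hc : ‖c‖ ≤ 1) (hw : w ∈ ball (0 : ℂ) 1) :
    iteratedDeriv 2 (fun w => log (1 - w * c) - log (1 - w * a)) w =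
      a ^ 2 / (1 - w * a) ^ 2 - c ^ 2 / (1 - w * c) ^ 2 := by
  have l : ∀ (c w : ℂ), HasDerivAt (fun w => 1 - w * c) (-c) w := fun c w => by
    simpa using ((hasDerivAt_id w).mul_const c).const_sub 1
  have : deriv (fun w => log (1 - w * c) - log (1 - w * a)) =ᶠ[𝓝 w]
      fun w => -c / (1 - w * c) - -a / (1 - w * a) := by
    filter_upwards [isOpen_ball.mem_nhds hw] with w hw
    exact (((l c w).clog (lt1 hc hw)).sub ((l a w).clog (lt1 na hw))).deriv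
  rw [iteratedDeriv_succ, iteratedDeriv_one, this.deriv_eq]
  refine ((((hasDerivAt_const w _).div (l c w) (slitPlane_ne_zero (lt1 hc hw))).sub
    ((hasDerivAt_const w _).div (l a w) (slitPlane_ne_zero (lt1 na hw)))).congr_deriv ?_).deriv
  ring

theorem result : ∃ (p q : ℕ) (f : ℂ → ℂ) (F : ℂ → ℂ → ℂ), 0 < p ∧ 0 < q ∧ p ≠ q ∧ Schlicht f ∧
    IsLog f F ∧ ∃ z ∈ ball (0 : ℂ) 1,
      ((p + q - 1).factorial : ℝ) < ‖S F p q z‖ * (1 - ‖z‖ ^ 2) ^ (p + q) := by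
  have y0 : ∀ {z : ℂ}, z ∈ ball (0 : ℂ) 1 → 1 - z * y ≠ 0 := fun hz => slitPlane_ne_zero (lt1 ny hz)
  have yy : y ^ 2 = 2 * a * y - 1 := by
    apply Complex.ext <;> simp [y, a, sq] <;> norm_num
  have key : ∀ z ∈ ball (0 : ℂ) 1, ∀ w ∈ ball (0 : ℂ) 1,
      z * (1 - a * z) / (1 - z * y) ^ 2 - w * (1 - a * w) / (1 - w * y) ^ 2 =
      (z - w) * ((1 - a * z) * (1 - w * m z)) / ((1 - z * y) ^ 2 * (1 - w * y) ^ 2) := by
    intro z hz w hw
    have : (1 - a * z) * (1 - w * m z) = 1 - a * z - w * (a - z) := by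
      have := a0 hz
      unfold m; field_simp
    rw [this, div_sub_div _ _ (pow_ne_zero _ (y0 hz)) (pow_ne_zero _ (y0 hw))]
    congr 1
    linear_combination z * w * (w - z) * yy
  have hz : (43 / 50 : ℂ) ∈ ball (0 : ℂ) 1 := by simp; norm_num
  refine ⟨1, 2, fun z => z * (1 - a * z) / (1 - z * y) ^ 2,
    fun z w => log (1 - w * m z) - log (1 - w * a), one_pos, two_pos, by norm_num,
    ⟨fun z hz => ?_, fun z hz w hw h => ?_, by simp, ?_⟩, ⟨fun p hp => ?_, by simp,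
    fun z hz w hw h1 h2 h3 => ?_⟩, 43 / 50, hz, ?_⟩
  · have := pow_ne_zero 2 (y0 hz)
    exact DifferentiableAt.differentiableWithinAt (by fun_prop (disch := assumption))
  · have := (key z hz w hw).symm.trans (sub_eq_zero.2 h)
    simpa [y0 hz, y0 hw, a0 hz, slitPlane_ne_zero (lt1 (nm hz) hw), sub_eq_zero] using this
  · refine ((((hasDerivAt_id (0 : ℂ)).mul (((hasDerivAt_id _).const_mul a).const_sub 1)).div
      ((((hasDerivAt_id _).mul_const y).const_sub 1).pow 2) (by simp)).congr_deriv ?_).deriv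
    simp
  · have := a0 hp.1
    refine (DifferentiableAt.sub (DifferentiableAt.clog (f := fun p : ℂ × ℂ => 1 - p.2 * m p.1) ?_
      (lt1 (nm hp.1) hp.2)) (DifferentiableAt.clog (f := fun p : ℂ × ℂ => 1 - p.2 * a)
      (by fun_prop) (lt1 na hp.2))).differentiableWithinAt
    unfold m; fun_prop (disch := assumption)
  · have := y0 hz; have := y0 hw; have := a0 hz; have := a0 hw; have := sub_ne_zero.2 h1
    beta_reduce
    rw [key z hz w hw, exp_sub, exp_log (slitPlane_ne_zero (lt1 (nm hz) hw)),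
      exp_log (slitPlane_ne_zero (lt1 na hw)), mul_comm w a]
    field_simp
  · have e : (fun s => iteratedDeriv 2 (fun w => log (1 - w * m s) - log (1 - w * a)) (43 / 50))
        =ᶠ[𝓝 (43 / 50)] fun s => a ^ 2 / (1 - 43 / 50 * a) ^ 2 - m s ^ 2 / (1 - 43 / 50 * m s) ^ 2 := by
      filter_upwards [isOpen_ball.mem_nhds hz] with s hs using d2 (nm hs) hz
    have dm := ((hasDerivAt_id (43 / 50 : ℂ)).const_sub a).div
      (((hasDerivAt_id _).const_mul a).const_sub 1) (a0 hz)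
    have := (((dm.pow 2).div (((dm.const_mul (43 / 50)).const_sub 1).pow 2)
      (pow_ne_zero _ (slitPlane_ne_zero (lt1 (nm hz) hz)))).const_sub
      (a ^ 2 / (1 - 43 / 50 * a) ^ 2)).deriv
    rw [S, iteratedDeriv_one, e.deriv_eq]
    refine lt_of_lt_of_eq ?_ (congrArg (fun t => ‖t‖ * _) this.symm)
    norm_num [a, Nat.factorial]

end Pool.Agent.Results.MP_9404a8_an.Slit
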